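import Mathlib
import Pool.Agent.K7.H70.AW.FinE
import Pool.Agent.H76.BKT.Mat
import Pool.Agent.H76.BKT.Sel

/-!
# The Bloch–Kato conjecture at `p = 2`: ALL the twists by Artin representations of the base changes of
# the newform of level `27`

Let `E : y² + y = x³`, the curve of the newform `f` of weight two and level `27`, and let `F₀` be
`ℚ(√-3)` or `ℚ(ζ₉)`.  Call a prime `ℓ ≠ 3` good when it is `1` modulo `3` and `2` is not a cube modulo it.
Let `L/F₀` be ANY Galois extension of `2`-power degree in which above the primes other than three only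
primes ramify modulo which `2` is not a cube, let `K ⊆ F ⊆ L` be subfields with `F/K` Galois, `K`
imaginary quadratic (or only totally complex), and `ρ` ANY complex representation of `Gal(F/K)`, of any
dimension `d`.  Then `π = BC_K(f) ⊗ ρ` has motivic weight `-1`, its `L`-function in the normalisation of
the problem is `L(s, π) = L(E/K, ρ, s + 1)`, and its Galois representation is `V₂(E) ⊗ ρ`.

* `d = 1`, the case of Q1: `ρ = χ` is a character with `χ χ^c = 1`.  For `K ≠ ℚ(√-3)` the representation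
  `π = BC_K(f) ⊗ χ` of `GL_2` is cuspidal and regular with `π^∨ = π^c |·|⁻¹`; for `K = ℚ(√-3)` it is the sum
  of `ψ χ` and `ψ^c χ`, two representations of `GL_1` as in the problem, `ψ` being the Hecke character
  of `E`.
* `d > 1`: the Hodge–Tate weights `0` and `1` of `π` have multiplicity `d`, so `π` is not regular; for these
  `π` the theorem is the same equality outside of the family posed.

Examples.  For `F₀ = ℚ(√-3)`: let `K = ℚ(√-D)`, where `D` is `3` modulo `4` and a product of good primes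
and possibly `3` (`ℚ(√-7)`, `ℚ(√-19)`, `ℚ(√-39)`, …), and `F/K` a Galois extension whose group is a
`2`-group, such that `F(√-3)/K(√-3)` is ramified only at `3` and at good primes, for example the
anticyclotomic extensions of `2`-power degree of these conductors.  For `F₀ = ℚ(ζ₉)` the group of `F/K` can
be `A₄`: for example `K = ℚ(√-19)` and `F = K F'`, where `F'/ℚ` is an `A₄`-extension with the cubic subfield
`ℚ(cos (2π/9))`, ramified at `3` and `19`.

We prove that both sides of the formula are zero for all these `π`, for `p = 2` and every `ι`.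

* Central value: for EVERY complex representation `ρ` of `Gal(F/K)`, the Euler product `L(E/K, ρ, s)`
  continues analytically from `Re s > 3/2` to a connected open set containing `1`, where it is not zero.
  If `Gal(F/K)` is a `2`-group, it continues to an entire function.
* Selmer group: for EVERY integral representation `R` of `Gal(F/K)` the Bloch–Kato Selmer group
  `H¹_f(K, V₂(E) ⊗ R)` is zero.  If `R` is a lattice in `T^d`, `T` a number field, with the action by `ρ`,
  then `V₂(E) ⊗ R` is the sum of `V₂(E) ⊗ ρ_λ` over the places `λ` of `T` above two.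

The local conditions.  `V₂(E) ⊗ R` is the rational `2`-adic Tate module of the abelian variety `A` over
`K` with the group `A(K̄) = E(K̄)^m` on which the Galois group acts through its action on `E(K̄)` and `R`.
By Bloch and Kato, `H¹_f(K_v, V₂(A))` is the image of the Kummer map `A(K_v) ⊗ ℚ₂ → H¹(K_v, V₂(A))`, for all
the finite places `v`.  We use this description: the restriction of the cocycle to the decomposition
group at `v` is `σ ↦ σ Q - Q` for a sequence `Q₀, Q₁, …` of points of `A` over the algebraic closure of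
`K_v` with `2 Q_{n+1} = Q_n`.

The local factors.  Let `v` be a prime of `K` and `w` a prime of `F` above `v`.  If `v` does not divide
`3`, then `E` has good reduction at `v` and the factor is
`det(1 - a_v q^(-s) A + q^(1 - 2 s) A²)⁻¹`, where `q = N(v)`, `a_v = q + 1 - #E(𝓞 K / v)`, and `A` is the
average of `ρ(σ⁻¹)` over the Frobenius elements `σ` at `w`: it is `ρ(Frob⁻¹)` on the vectors fixed by the
inertia group, and zero on a complement.  If `v` divides `3`, the factor is `1`: `E` has additive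
reduction over `F` at `w`, so that the inertia group of `F_w`, on which `ρ` is trivial, has no invariants
in the Tate module of `E`.

The proof.  The L-functions: project AW (helper70 with helpers 56, 59, 65, 66, 73, 90, 91, 20; the entire
continuation and the order at `1` for all the Artin representations, `MP_26073e_nt`), over the theorem
`TwoExtensionsTwists` for `MP_32c55d_nt`.  The Selmer groups: the descent of the twisted Selmer groups from
`F` to `K` (helper76).  This replaces `ArtinTwistsEveryDimension`, which has the L-values only as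
products over the conjugates of `ρ`, and for single `ρ` only if `tr ρ(g) + tr ρ(g⁻¹)` is rational.
-/

set_option autoImplicit false

open NumberField IsDedekindDomain WeierstrassCurve
open scoped Classical

namespace Pool.Agent.Results.MP_7c08ba_nt.AllArtinTwists

/-- Above the prime numbers other than three, only primes modulo which `2` is not a cube ramify in
`L/F₀`: if `σ ≠ 1` lies in the inertia group of the prime `w` of `L`, and `w` does not divide three, then
`2` is not a cube modulo the prime of `F₀` below `w`. -/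
def GoodRam (F₀ L : Type) [Field F₀] [NumberField F₀] [Field L] [NumberField L] [Algebra F₀ L] :
    Prop :=
  ∀ (w : HeightOneSpectrum (𝓞 L)) (σ : Gal(L/F₀)), (3 : 𝓞 L) ∉ w.asIdeal →
    (∀ x : 𝓞 L, σ • x - x ∈ w.asIdeal) → σ ≠ 1 → ∀ α : 𝓞 F₀, α ^ 3 - 2 ∉ w.asIdeal.under (𝓞 F₀)

/-! ### The L-functions -/

section defs

variable {K : Type} [Field K] [NumberField K]

/-- The number of the elements of the residue field of `v`. -/
noncomputable def nm (v : HeightOneSpectrum (𝓞 K)) : ℕ := Nat.card (𝓞 K ⧸ v.asIdeal)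

/-- The number of the affine points of `E : y² + y = x³` over the residue field of `v`. -/
noncomputable def pts (v : HeightOneSpectrum (𝓞 K)) : ℕ :=
  Nat.card {p : (𝓞 K ⧸ v.asIdeal) × (𝓞 K ⧸ v.asIdeal) // p.2 ^ 2 + p.2 = p.1 ^ 3}

variable {F : Type} [Field F] [NumberField F] [Algebra K F]

/-- `w v` is a prime of `F` above `v`, for all the primes `v` of `K`. -/
def Above (w : HeightOneSpectrum (𝓞 K) → HeightOneSpectrum (𝓞 F)) : Prop :=
  ∀ v, (w v).asIdeal.comap (algebraMap (𝓞 K) (𝓞 F)) = v.asIdeal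

/-- `σ` is a Frobenius element at the prime `w` of `F` above `v`: `σ x ≡ x ^ N(v)` modulo `w`. -/
def IsFrobenius (v : HeightOneSpectrum (𝓞 K)) (w : HeightOneSpectrum (𝓞 F)) (σ : Gal(F/K)) : Prop :=
  ∀ x : 𝓞 F, σ • x - x ^ nm v ∈ w.asIdeal

/-- The average of `ρ(σ⁻¹)` over all the Frobenius elements `σ` at `w`: `ρ(Frob⁻¹)` on the vectors fixed
by the inertia group of `w`, and zero on a complement. -/
noncomputable def frob {d : ℕ} (ρ : Gal(F/K) →* Matrix (Fin d) (Fin d) ℂ)
    (v : HeightOneSpectrum (𝓞 K)) (w : HeightOneSpectrum (𝓞 F)) : Matrix (Fin d) (Fin d) ℂ :=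
  ((Nat.card {σ : Gal(F/K) // IsFrobenius v w σ} : ℂ))⁻¹ •
    ∑ σ : {σ : Gal(F/K) // IsFrobenius v w σ}, ρ (σ : Gal(F/K))⁻¹

/-- The local factor of `L(E/K, ρ, s)` at `v`: `1` if `v` divides `3`, and
`det(1 - a N(v)^(-s) A + N(v)^(1 - 2 s) A²)⁻¹` with `a = N(v) + 1 - #E(𝓞 K / v)` and `A = frob ρ v w`
otherwise. -/
noncomputable def factor {d : ℕ} (ρ : Gal(F/K) →* Matrix (Fin d) (Fin d) ℂ)
    (v : HeightOneSpectrum (𝓞 K)) (w : HeightOneSpectrum (𝓞 F)) (s : ℂ) : ℂ :=
  if (3 : 𝓞 K) ∈ v.asIdeal then 1 else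
    (Matrix.det (1 - ((((nm v : ℤ) - pts v : ℤ) : ℂ) * (nm v : ℂ) ^ (-s)) • frob ρ v w +
      ((nm v : ℂ) ^ (1 - 2 * s)) • frob ρ v w ^ 2))⁻¹

/-- `U` is a connected open set which contains `1` and the half plane `Re s > 3/2`. -/
def Region (U : Set ℂ) : Prop :=
  IsOpen U ∧ IsConnected U ∧ {s : ℂ | (3 / 2 : ℝ) < s.re} ⊆ U ∧ (1 : ℂ) ∈ U

/-- `Φ` is the L-function `L(E/K, ρ, s)`: it is analytic on `U` and equal to the Euler product for
`Re s > 3/2`. -/
def IsL {d : ℕ} (w : HeightOneSpectrum (𝓞 K) → HeightOneSpectrum (𝓞 F))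
    (ρ : Gal(F/K) →* Matrix (Fin d) (Fin d) ℂ) (U : Set ℂ) (Φ : ℂ → ℂ) : Prop :=
  AnalyticOnNhd ℂ Φ U ∧ ∀ s : ℂ, (3 / 2 : ℝ) < s.re →
    HasProd (fun v : HeightOneSpectrum (𝓞 K) => factor ρ v (w v) s) (Φ s)

/-- `L(E/K, ρ, s)` continues analytically to `1`, and is not zero there. -/
def CentralValue {d : ℕ} (w : HeightOneSpectrum (𝓞 K) → HeightOneSpectrum (𝓞 F))
    (ρ : Gal(F/K) →* Matrix (Fin d) (Fin d) ℂ) : Prop :=
  ∃ (U : Set ℂ) (Φ : ℂ → ℂ), Region U ∧ IsL w ρ U Φ ∧ Φ 1 ≠ 0

/-- `L(E/K, ρ, s)` continues to an entire function, which is not zero at `1`. -/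
def EntireValue {d : ℕ} (w : HeightOneSpectrum (𝓞 K) → HeightOneSpectrum (𝓞 F))
    (ρ : Gal(F/K) →* Matrix (Fin d) (Fin d) ℂ) : Prop :=
  ∃ Φ : ℂ → ℂ, Differentiable ℂ Φ ∧ (∀ s : ℂ, (3 / 2 : ℝ) < s.re →
    HasProd (fun v : HeightOneSpectrum (𝓞 K) => factor ρ v (w v) s) (Φ s)) ∧ Φ 1 ≠ 0

end defs

/-! ### The Selmer groups -/

section selmer

/-- The curve `E : y² + y = x³` over `K`. -/
def E (K : Type) [Field K] : WeierstrassCurve K := ⟨0, 0, 1, 0, 0⟩

/-- The absolute Galois group of `K`, with the Krull topology. -/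
abbrev AbsGal (K : Type) [Field K] : Type := AlgebraicClosure K ≃ₐ[K] AlgebraicClosure K

/-- The group `E(L)`, for a field `L ⊇ K`. -/
def Pt (K L : Type) [Field K] [Field L] [Algebra K L] : Type := ((E K).baseChange L).toAffine.Point

/-- The group law on `E(L)`. -/
noncomputable instance instPt (K L : Type) [Field K] [Field L] [Algebra K L] :
    AddCommGroup (Pt K L) :=
  @Affine.Point.instAddCommGroup L _ ((E K).baseChange L).toAffine (Classical.decEq L)

/-- The map on points given by a homomorphism of fields. -/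
noncomputable def act {K L L' : Type} [Field K] [Field L] [Field L'] [Algebra K L] [Algebra K L']
    (φ : L →ₐ[K] L') : Pt K L →+ Pt K L' :=
  @Affine.Point.map K K L L' _ _ _ _ (E K) (Classical.decEq L) (Classical.decEq L') _ _ _ _ _ _ _ φ

variable {K F : Type} [Field K] [Field F] [Algebra K F] {m : ℕ}

/-- `V₂(E)`: the sequences `x₀, x₁, …` of points of `E` over the algebraic closure, of `2`-power order,
with `2 xₙ₊₁ = xₙ` (`xₙ` is the class of `2⁻ⁿ x` in `V₂(E) / T₂(E) = E[2 ^ ∞]`). -/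
def InV (x : ℕ → Pt K (AlgebraicClosure K)) : Prop :=
  ∀ n, 2 • x (n + 1) = x n ∧ ∃ a : ℕ, (2 ^ a : ℕ) • x n = 0

/-- The restriction of `σ` to the subfield `j(F)` of the algebraic closure is `g`. -/
def Restr (j : F →ₐ[K] AlgebraicClosure K) (σ : AbsGal K) (g : Gal(F/K)) : Prop :=
  ∀ x, σ (j x) = j (g x)

/-- `c` is a continuous cocycle of the absolute Galois group of `K` with values in the
representation `V₂(E) ⊗ R`, that is `V₂(E)^m` with `σ (x₁, …, x_m) = R(g) (σ x₁, …, σ x_m)`, where `g` is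
the restriction of `σ` to `F`. -/
structure IsCocycle (j : F →ₐ[K] AlgebraicClosure K)
    (R : Gal(F/K) →* Matrix (Fin m) (Fin m) ℤ)
    (c : AbsGal K → Fin m → ℕ → Pt K (AlgebraicClosure K)) : Prop where
  cont : ∀ i n, IsLocallyConstant fun σ => c σ i n
  mem : ∀ σ i, InV (c σ i)
  mul : ∀ σ τ g, Restr j σ g → ∀ i n,
    c (σ * τ) i n = c σ i n + ∑ k, R g i k • act σ.toAlgHom (c τ k n)

/-- The local condition over the extension `Kv` of `K`: the restriction of `c` to the absolute Galois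
group of `Kv` is in the image of the Kummer map of the abelian variety `A = E ⊗ R`: it is
`σ ↦ σ Q - Q` for a sequence of points `Q₀, Q₁, …` of `A` over the algebraic closure of `Kv` with
`2 Qₙ₊₁ = Qₙ`. -/
def LocalCondition (j : F →ₐ[K] AlgebraicClosure K) (R : Gal(F/K) →* Matrix (Fin m) (Fin m) ℤ)
    (Kv : Type) [Field Kv] [Algebra K Kv]
    (c : AbsGal K → Fin m → ℕ → Pt K (AlgebraicClosure K)) : Prop :=
  ∀ ι : AlgebraicClosure K →ₐ[K] AlgebraicClosure Kv,
    ∃ Q : Fin m → ℕ → Pt K (AlgebraicClosure Kv), (∀ i n, 2 • Q i (n + 1) = Q i n) ∧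
    ∀ (τ : AbsGal Kv) (σ : AbsGal K), (∀ x, τ (ι x) = ι (σ x)) → ∀ g, Restr j σ g → ∀ i n,
      act ι (c σ i n) = ∑ k, R g i k • act (τ.toAlgHom.restrictScalars K) (Q k n) - Q i n

/-- `c` is a coboundary: `c σ = σ x - x` for an element `x` of `V₂(E) ⊗ R`. -/
def IsCoboundary (j : F →ₐ[K] AlgebraicClosure K) (R : Gal(F/K) →* Matrix (Fin m) (Fin m) ℤ)
    (c : AbsGal K → Fin m → ℕ → Pt K (AlgebraicClosure K)) : Prop :=
  ∃ x : Fin m → ℕ → Pt K (AlgebraicClosure K), (∀ i, InV (x i)) ∧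
    ∀ σ g, Restr j σ g → ∀ i n, c σ i n = ∑ k, R g i k • act σ.toAlgHom (x k n) - x i n

/-- The Bloch–Kato Selmer group `H¹_f(K, V₂(E) ⊗ R)` is zero. -/
def SelmerZero [NumberField K] (j : F →ₐ[K] AlgebraicClosure K)
    (R : Gal(F/K) →* Matrix (Fin m) (Fin m) ℤ) : Prop :=
  ∀ c : AbsGal K → Fin m → ℕ → Pt K (AlgebraicClosure K), IsCocycle j R c →
    (∀ v : HeightOneSpectrum (𝓞 K), LocalCondition j R (v.adicCompletion K) c) →
    IsCoboundary j R c

end selmer

/-! ### The proof -/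

section lemmas

open Pool.Agent.H76.BKT

variable {K : Type} [Field K] [NumberField K] {F : Type} [Field F] [NumberField F] [Algebra K F]

/-- the coefficients in terms of the residue field -/
theorem pts_eq (v : HeightOneSpectrum (𝓞 K)) (h3 : (3 : 𝓞 K) ∉ v.asIdeal) :
    Pool.Agent.W189.NF.aV (Pool.Agent.Y696.E0 K) v = (nm v : ℤ) - pts v ∧
    Pool.Agent.W189.NF.eV (Pool.Agent.Y696.E0 K) v = (nm v : ℤ) := by
  obtain ⟨h1, h2⟩ := Pool.Agent.Y696.aV_good v h3
  have hnm : Pool.Agent.Y696.nK v = nm v := (Pool.Agent.Y696.card_nm v).symm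
  have hp : v.asIdeal.IsMaximal := v.isPrime.isMaximal v.ne_bot
  let _ : Field (𝓞 K ⧸ v.asIdeal) := Ideal.Quotient.field _
  have hf1 := Pool.Agent.W189.NF.finite_res v
  have hf2 : Finite (𝓞 K ⧸ v.asIdeal) := Ideal.finiteQuotientOfFreeOfNeBot _ v.ne_bot
  let _ : Fintype (IsLocalRing.ResidueField (Pool.Agent.W189.NF.Ov v)) := Fintype.ofFinite _
  let _ : Fintype (𝓞 K ⧸ v.asIdeal) := Fintype.ofFinite _
  have hc : Fintype.card (IsLocalRing.ResidueField (Pool.Agent.W189.NF.Ov v)) =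
      Fintype.card (𝓞 K ⧸ v.asIdeal) := by
    rw [← Nat.card_eq_fintype_card, ← Nat.card_eq_fintype_card]
    exact (Pool.Agent.W189.NF.card_res v).trans (Pool.Agent.Y696.card_nm v).symm
  have e := FiniteField.ringEquivOfCardEq hc
  have h4 : Nat.card (Pool.Agent.Y696.Aff (IsLocalRing.ResidueField (Pool.Agent.W189.NF.Ov v))) =
      pts v := Pool.Agent.Y696.aff_iso e
  rw [h1, h2, h4, hnm]
  exact ⟨rfl, rfl⟩

theorem frob_eq {d : ℕ} (ρ : Gal(F/K) →* Matrix (Fin d) (Fin d) ℂ) {v : HeightOneSpectrum (𝓞 K)}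
    {w : HeightOneSpectrum (𝓞 F)} (hw : w.asIdeal.under (𝓞 K) = v.asIdeal) {φ : Gal(F/K)}
    (hφ : ∀ x : 𝓞 F, φ • x - x ^ Nat.card (𝓞 K ⧸ w.asIdeal.under (𝓞 K)) ∈ w.asIdeal) :
    frob ρ v w = avM ρ (w.asIdeal.inertia Gal(F/K)) φ := by
  have hnm : Pool.Agent.Y696.nK v = nm v := (Pool.Agent.Y696.card_nm v).symm
  have hn0 : nm v ≠ 0 := by
    rw [← hnm]
    exact (lt_of_lt_of_le two_pos (Pool.Agent.H921R2.TatePole.two_le_nm v)).ne'
  have hcard : Nat.card (𝓞 K ⧸ w.asIdeal.under (𝓞 K)) = nm v := by rw [hw]; rfl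
  rw [hcard] at hφ
  have hp := w.isPrime
  have h1 := Pool.Agent.K7.H70.EQ.sum_frob hn0 hφ (repM ρ)
  rw [avg_repM] at h1
  apply Matrix.toLin'.injective
  rw [← h1]
  unfold frob
  rw [map_smul, map_sum]
  rfl

theorem factor_eq {d : ℕ} (ρ : Gal(F/K) →* Matrix (Fin d) (Fin d) ℂ)
    {v : HeightOneSpectrum (𝓞 K)}
    {w : HeightOneSpectrum (𝓞 F)} (hw : w.asIdeal.under (𝓞 K) = v.asIdeal) {φ : Gal(F/K)}
    (hφ : ∀ x : 𝓞 F, φ • x - x ^ Nat.card (𝓞 K ⧸ w.asIdeal.under (𝓞 K)) ∈ w.asIdeal)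
    (hK : Pool.Agent.K7.H70.SE.GoodG K) (s : ℂ) :
    factor ρ v w s = lfM ρ v w φ s := by
  have hnm : Pool.Agent.Y696.nK v = nm v := (Pool.Agent.Y696.card_nm v).symm
  have hn0 : (nm v : ℂ) ≠ 0 := by
    rw [← hnm]
    exact Nat.cast_ne_zero.2
      (lt_of_lt_of_le two_pos (Pool.Agent.H921R2.TatePole.two_le_nm v)).ne'
  unfold factor lfM
  rw [frob_eq ρ hw hφ, hnm]
  by_cases h3 : (3 : 𝓞 K) ∈ v.asIdeal
  · obtain ⟨h1, h2⟩ := hK.bad v h3
    rw [if_pos h3, h1, h2]
    simp
  · obtain ⟨h1, h2⟩ := pts_eq v h3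
    have hpow : (nm v : ℂ) ^ (1 - 2 * s) = ((nm v : ℤ) : ℂ) * ((nm v : ℂ) ^ (-s)) ^ 2 := by
      rw [Int.cast_natCast, sub_eq_add_neg, Complex.cpow_add _ _ hn0, Complex.cpow_one, ← mul_neg,
        show (2 : ℂ) * -s = ((2 : ℕ) : ℂ) * -s by norm_num, Complex.cpow_nat_mul]
    rw [if_neg h3, h1, h2, hpow]

end lemmas

/-- **Main theorem.**  Let `F₀` be `ℚ(√-3)` or `ℚ(ζ₉)`, let `L/F₀` be a Galois extension whose degree
is a power of two, in which above the prime numbers other than three only primes ramify modulo which `2`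
is not a cube, and let `F` be a subfield of `L` and `K` a subfield of `F` such that `F/K` is Galois and `K`
is totally complex (for example imaginary quadratic).  Let `E : y² + y = x³`.

1. For all complex representations `ρ` of `Gal(F/K)`, of any dimension, the function `L(E/K, ρ, s)`
   continues analytically to a connected open set containing `1` and is not zero at `1`.  If `Gal(F/K)`
   is a `2`-group, it continues to an entire function.
2. For all representations `R` of `Gal(F/K)` over `ℤ` the Selmer group `H¹_f(K, V₂(E) ⊗ R)` is zero. -/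
theorem result : ∀ (F₀ L K F : Type) [Field F₀] [NumberField F₀]
    [Field L] [NumberField L] [Algebra F₀ L] [IsGalois F₀ L] [Field K] [NumberField K]
    [IsTotallyComplex K] [Field F] [NumberField F] [Algebra K F] [IsGalois K F] [Algebra F L],
    (IsCyclotomicExtension {3} ℚ F₀ ∨ IsCyclotomicExtension {9} ℚ F₀) →
    (∃ n : ℕ, Module.finrank F₀ L = 2 ^ n) → GoodRam F₀ L →
    (∀ w : HeightOneSpectrum (𝓞 K) → HeightOneSpectrum (𝓞 F), Above w → ∀ d : ℕ,
      ∀ ρ : Gal(F/K) →* Matrix (Fin d) (Fin d) ℂ,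
        CentralValue w ρ ∧ ((∃ m : ℕ, Module.finrank K F = 2 ^ m) → EntireValue w ρ)) ∧
    ∀ (j : F →ₐ[K] AlgebraicClosure K) (m : ℕ) (R : Gal(F/K) →* Matrix (Fin m) (Fin m) ℤ),
      SelmerZero j R := by
  intro F₀ L K F _ _ _ _ _ _ _ _ _ _ _ _ _ _ hF₀ hn hg
  have hG : Pool.Agent.K7.H56.P.Gd F₀ L := Pool.Agent.K7.H56.P.gd_of fun w hw h3 α hα => by
    obtain ⟨σ, hσ, hin⟩ := hw
    refine hg w σ (fun h => h3 ?_) hin hσ α hα
    show algebraMap (𝓞 F₀) (𝓞 L) 3 ∈ w.asIdeal
    rw [map_ofNat]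
    exact h
  obtain ⟨hf, hr, h3⟩ := Pool.Agent.K7.H70.AW.family (L := L) hF₀ hn hG
  have hs : Pool.Agent.K7.H70.ST.SelV F := by
    rcases hF₀ with hM | hM
    · exact Pool.Agent.K7.H73.L3.selv3 (F := F₀) (K := L) (k := F) hn hG
    · exact Pool.Agent.K7.H70.ST.selv9 (M := F₀) (K := L) (k := F) hn hG
  have hK : Pool.Agent.K7.H70.SE.GoodG K := by
    let _ : Algebra K L := ((algebraMap F L).comp (algebraMap K F)).toAlgebra
    exact hf.good K
  refine ⟨fun w hw d ρ => ?_, fun j m R c hc hl =>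
    Pool.Agent.H76.BKT.tw_zero hs ⟨hc.cont, hc.mem, hc.mul⟩ hl⟩
  have hw' : ∀ v, Pool.Agent.Y696.und0 K (w v) = v := fun v => HeightOneSpectrum.ext (hw v)
  choose φ hφ using fun v => Pool.Agent.K7.H70.SE.exists_frob (K := K) (w v)
  have hfac : ∀ (v : HeightOneSpectrum (𝓞 K)) (s : ℂ), factor ρ v (w v) s =
      (LinearMap.det ((1 : Module.End ℂ (Fin d → ℂ)) -
        ((Pool.Agent.W189.NF.aV (Pool.Agent.Y696.E0 K) v : ℂ) *
          (Pool.Agent.Y696.nK v : ℂ) ^ (-s)) •
            Pool.Agent.K7.H70.EQ.avg (Pool.Agent.H76.BKT.repM ρ)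
              ((w v).asIdeal.inertia Gal(F/K)) (φ v) +
        ((Pool.Agent.W189.NF.eV (Pool.Agent.Y696.E0 K) v : ℂ) *
          ((Pool.Agent.Y696.nK v : ℂ) ^ (-s)) ^ 2) •
            Pool.Agent.K7.H70.EQ.avg (Pool.Agent.H76.BKT.repM ρ)
              ((w v).asIdeal.inertia Gal(F/K)) (φ v) ^ 2))⁻¹ := by
    intro v s
    rw [factor_eq ρ (hw v) (hφ v) hK s, Pool.Agent.H76.BKT.avg_repM,
      Pool.Agent.H76.BKT.det_polyM]
    rfl
  refine ⟨?_, fun h2 => ?_⟩
  · obtain ⟨U, Φ, g1, g2, g3, g4, g5, g6, g7, -⟩ :=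
      Pool.Agent.K7.H70.AW.fin_all hf hr h3 hK (Pool.Agent.H76.BKT.repM ρ) w hw' φ hφ
    refine ⟨U, Φ, ⟨g1, g2, g3, g4⟩, ⟨g5, fun s hs => ?_⟩, g7⟩
    rw [funext fun v => hfac v s]
    exact g6 s hs
  · have hP : IsPGroup 2 Gal(F/K) := by
      obtain ⟨m, hm⟩ := h2
      exact IsPGroup.of_card (n := m) ((IsGalois.card_aut_eq_finrank K F).trans hm)
    obtain ⟨Φ, g1, g2, g3⟩ :=
      Pool.Agent.K7.H70.AW.fin_ent hf hr h3 hK hP (Pool.Agent.H76.BKT.repM ρ) w hw' φ hφ
    refine ⟨Φ, g1, fun s hs => ?_, g3⟩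
    rw [funext fun v => hfac v s]
    exact g2 s hs

end Pool.Agent.Results.MP_7c08ba_nt.AllArtinTwists
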