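import Mathlib
import Pool.Agent.R384.Z.Fm

/-!
# Bloch–Kato Selmer groups of representations of every dimension over imaginary quadratic fields:
# localization at one place above `2`

Let `K = ℚ(√-d)`, where `d` is a prime number that is `7` modulo `16`, or the product of a prime
number that is `5` modulo `8` and of a prime number that is `3` modulo `8`; `2` splits in `K`. Let
`L ⊇ K` be a field contained in a finite Galois extension of `K` of degree a power of `2` which is
unramified outside `2`, for example `L = K` (or a layer of the anticyclotomic `ℤ_2`-extension; there is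
no condition on the Galois group, and `L / K` need not be Galois). Let `V` be a continuous
representation of `G_L`, of ANY dimension `n`, over a finite extension of `ℚ_2` (or over the fraction
field of a Noetherian local domain with finite residue field of characteristic `2`), which is
unramified outside `2` and residually unipotent; `V` need not be irreducible or geometric.

Theorem: for every place `v` of `L` above `2` linearly independent classes of `H¹(L, V)` that are
unramified outside `2` have linearly independent localizations in `H¹(L_v, V)`. So the dimension of the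
Selmer group of `V` with arbitrary local conditions `C_v ⊆ H¹(L_v, V)` at the places above `2` is at
most `dim C_v`, for EVERY `v` above `2`.

The Bloch–Kato Selmer group `H¹_f(L, V)` is the Selmer group for `C_v = H¹_f(L_v, V)`: for a place `v`
which does not divide `2` the representation `V` is unramified at `v` and `H¹_f(L_v, V)` consists of
the unramified classes. By the theorem of Bloch and Kato, `dim H¹_f(L_v, V)` is
`dim H⁰(L_v, V)` plus the number of the positive Hodge–Tate weights of `V` at `v`. So the theorem has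
the following consequences for a regular algebraic cuspidal automorphic representation `π` of `GL_n`
over `K` with `π^∨ = π^c |·|⁻¹` whose conductor is a power of primes above `2` and whose `2`-adic
realization `V` is residually unipotent (`v`, `v'` are the two places of `K` above `2`, `h` is the
number of the positive Hodge–Tate weights at `v`, so that there are `n - h` at `v'`):

* `dim H¹_f(K, V) ≤ min(h, n - h) ≤ n / 2`;
* `H¹_f(K, V) = 0` if `h = 0` or `h = n`: the conjecture predicts `L(0, π) ≠ 0`.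

For example let `f` be a newform of weight `2 k` on `Γ_0(2^r)`, `π` the base change of `f` to `K`
twisted by an algebraic Hecke character `χ` of `2`-power conductor, of infinity type `(m, -m)`,
trivial on the idèles of `ℚ` and residually trivial (automatic for `d = 7`). The residual
representation of `f` is unipotent (Tate). So the dimension of `H¹_f(K, V_f(k) ⊗ χ)` is at most `1`
if `|m| < k`, where the root number is `-1`, and it is `0` if `|m| ≥ k`, where the root number is `1`.

These deductions use the local theory of Bloch and Kato and are not part of the formal proof.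

Proof. By the theorem of Burnside and the determination of the quadratic extensions of `K` unramified
outside `2` (`Pool.Agent.Z384.dense`, from the starting library, used there for
`MP_adf543_nt.MonomialFromOnePlace`), the decomposition group at `v` is dense in the image of every
residually unipotent representation of `G_L` unramified outside `2`. This is applied to the extension
of the trivial representation by `V` given by the cocycle.
-/

set_option autoImplicit false

namespace Pool.Agent.Results.MP_7c08ba_nt.OnePlaceAboveTwo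

open Matrix IsLocalRing

/-- An algebraic closure of `ℚ`. -/
abbrev QBar : Type := AlgebraicClosure ℚ

/-- The field `ℚ(s)`. It is `ℚ(√-d)` if `s² = -d`. -/
noncomputable abbrev K (s : QBar) : IntermediateField ℚ QBar := IntermediateField.adjoin ℚ {s}

/-- The absolute Galois group of `ℚ(s)`. -/
def Gal (s : QBar) : Type := QBar ≃ₐ[K s] QBar

/-- its group structure -/
noncomputable instance instGroupGal (s : QBar) : Group (Gal s) := AlgEquiv.aut (R := K s) (A₁ := QBar)

/-- its Krull topology -/
noncomputable instance instTopGal (s : QBar) : TopologicalSpace (Gal s) := krullTopology (K s) QBar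

/-- The action of the Galois group on `ℚ̄`. -/
noncomputable def app {s : QBar} (σ : Gal s) (x : QBar) : QBar := (show QBar ≃ₐ[K s] QBar from σ) x

/-- The class of the numbers `d`: the primes `7 mod 16`, and the products of a prime `5 mod 8` and of
a prime `3 mod 8`. -/
def InClass (d : ℕ) : Prop :=
  (d.Prime ∧ d % 16 = 7) ∨ ∃ p q : ℕ, p.Prime ∧ q.Prime ∧ p % 8 = 5 ∧ q % 8 = 3 ∧ d = p * q

/-- Embeddings of `ℚ̄` into the algebraic closure of `ℚ_p`. Each of them gives a place above `p` of all
subfields of `ℚ̄`. -/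
abbrev Emb (p : ℕ) [Fact p.Prime] : Type := QBar →ₐ[ℚ] PadicAlgCl p

/-- The decomposition group of the place given by the embedding `ι` of `ℚ̄`. -/
def Dec {s : QBar} {p : ℕ} [Fact p.Prime] (ι : Emb p) : Set (Gal s) :=
  {σ | ∃ τ : PadicAlgCl p ≃ₐ[ℚ_[p]] PadicAlgCl p, ∀ x, τ (ι x) = ι (app σ x)}

/-- Its inertia group: the automorphisms which are trivial on the residue field. -/
def Inr {s : QBar} {p : ℕ} [Fact p.Prime] (ι : Emb p) : Set (Gal s) :=
  {σ | ∃ τ : PadicAlgCl p ≃ₐ[ℚ_[p]] PadicAlgCl p, (∀ x, τ (ι x) = ι (app σ x)) ∧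
    ∀ z : PadicAlgCl p, ‖z‖ ≤ 1 → ‖τ z - z‖ < 1}

/-- `N` is the Galois group of `ℚ̄ / M` for a finite Galois extension `M / ℚ(s)` whose degree is a
power of `2` and which is unramified outside `2`: `N` is a normal open subgroup of index a power of
`2` and contains the inertia groups of the odd primes. -/
structure TwoExtension {s : QBar} (N : Subgroup (Gal s)) : Prop where
  isOpen : IsOpen (N : Set (Gal s))
  normal : N.Normal
  index : ∃ a : ℕ, N.index = 2 ^ a
  unramified : ∀ (p : ℕ) [Fact p.Prime] (ι : Emb p), p ≠ 2 → ∀ σ ∈ (Inr ι : Set (Gal s)), σ ∈ N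

/-- The representation `ρ` of the absolute Galois group `H` of `L` is continuous, residually
unipotent and unramified outside `2`. -/
structure Admissible {s : QBar} {H : Subgroup (Gal s)} {A : Type} [CommRing A] [IsLocalRing A]
    [TopologicalSpace A] {n : ℕ} (ρ : H →* GL (Fin n) A) : Prop where
  cont : ∀ i j, Continuous fun σ => (ρ σ : Matrix (Fin n) (Fin n) A) i j
  unipotent : ∀ σ, ∃ m : ℕ, ∀ i j,
    (((ρ σ : Matrix (Fin n) (Fin n) A) - 1) ^ m) i j ∈ maximalIdeal A
  unramified : ∀ (p : ℕ) [Fact p.Prime] (ι : Emb p), p ≠ 2 →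
    ∀ σ : H, (σ : Gal s) ∈ Inr ι → ρ σ = 1

/-! ### Cohomology -/

section cohomology

variable {s : QBar} {H : Subgroup (Gal s)} {A : Type} [CommRing A] (F : Type) [Field F] [Algebra A F]
  {n : ℕ}

/-- The action of `σ` on `V = F ^ n`. -/
noncomputable def act (ρ : H →* GL (Fin n) A) (σ : H) (v : Fin n → F) : Fin n → F :=
  ((ρ σ : Matrix (Fin n) (Fin n) A).map (algebraMap A F)) *ᵥ v

/-- `c` is a continuous cocycle of `H` with values in `V`: it satisfies the cocycle identity, and a
nonzero multiple of `c` has its values in the lattice `A ^ n` and is continuous. -/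
structure IsCocycle [TopologicalSpace A] (ρ : H →* GL (Fin n) A) (c : H → Fin n → F) : Prop where
  mul : ∀ σ τ, c (σ * τ) = c σ + act F ρ σ (c τ)
  cont : ∃ (a : A) (b : H → Fin n → A), algebraMap A F a ≠ 0 ∧ Continuous b ∧
    ∀ σ i, algebraMap A F a * c σ i = algebraMap A F (b σ i)

/-- `c` is unramified outside `2`: it is zero on the inertia groups of the odd primes. -/
def IsUnramified (c : H → Fin n → F) : Prop :=
  ∀ (p : ℕ) [Fact p.Prime] (ι : Emb p), p ≠ 2 →
    ∀ σ : H, (σ : Gal s) ∈ (Inr ι : Set (Gal s)) → c σ = 0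

/-- The restriction of `c` to the intersection of `H` and `D` is a coboundary. -/
def IsCoboundaryOn (ρ : H →* GL (Fin n) A) (D : Set (Gal s)) (c : H → Fin n → F) : Prop :=
  ∃ v, ∀ σ : H, (σ : Gal s) ∈ D → c σ = act F ρ σ v - v

/-- The classes of the cocycles `c 0`, …, `c (k - 1)` are linearly independent in the cohomology of the
intersection of `H` and `D`. -/
def IndependentOn (ρ : H →* GL (Fin n) A) (D : Set (Gal s)) {k : ℕ} (c : Fin k → H → Fin n → F) :
    Prop :=
  ∀ x : Fin k → F, IsCoboundaryOn F ρ D (fun σ => ∑ i, x i • c i σ) → x = 0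

end cohomology

/-! ### The proof -/

section proof

open Pool.Agent.Z384

/-- the extension given by a cocycle -/
noncomputable def ext' {G : Type} [Group G] {A : Type} [CommRing A] {n : ℕ} (ρ : G →* GL (Fin n) A)
    (b : G → Fin n → A)
    (hb : ∀ σ τ, b (σ * τ) = b σ + ((ρ σ : Matrix (Fin n) (Fin n) A) *ᵥ b τ)) :
    G →* Matrix (Fin n ⊕ Fin 1) (Fin n ⊕ Fin 1) A where
  toFun σ := Matrix.fromBlocks (ρ σ : Matrix (Fin n) (Fin n) A) (Matrix.of fun i _ => b σ i) 0 1
  map_one' := by
    have h1 : b 1 = 0 := by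
      have := hb 1 1
      rw [mul_one, map_one, Units.val_one, Matrix.one_mulVec] at this
      simpa using this
    rw [h1, map_one, Units.val_one, ← Matrix.fromBlocks_one]
    congr 1
  map_mul' σ τ := by
    rw [Matrix.fromBlocks_multiply, map_mul, Units.val_mul, hb]
    congr 1
    · simp
    · ext i j
      simp [Matrix.mul_apply, Matrix.mulVec, dotProduct, add_comm]
    · simp
    · simp

/-- the extension as a representation on `A ^ (n + 1)` -/
noncomputable def ext {G : Type} [Group G] {A : Type} [CommRing A] {n : ℕ} (ρ : G →* GL (Fin n) A)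
    (b : G → Fin n → A)
    (hb : ∀ σ τ, b (σ * τ) = b σ + ((ρ σ : Matrix (Fin n) (Fin n) A) *ᵥ b τ)) :
    G →* GL (Fin (n + 1)) A :=
  MonoidHom.toHomUnits
    ((Matrix.reindexAlgEquiv A A (finSumFinEquiv (m := n) (n := 1))).toMulEquiv.toMonoidHom.comp
      (ext' ρ b hb))

lemma ext_val {G : Type} [Group G] {A : Type} [CommRing A] {n : ℕ} (ρ : G →* GL (Fin n) A)
    (b : G → Fin n → A)
    (hb : ∀ σ τ, b (σ * τ) = b σ + ((ρ σ : Matrix (Fin n) (Fin n) A) *ᵥ b τ)) (σ : G) :
    (ext ρ b hb σ : Matrix (Fin (n + 1)) (Fin (n + 1)) A) =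
      Matrix.reindexAlgEquiv A A (finSumFinEquiv (m := n) (n := 1)) (ext' ρ b hb σ) := rfl

lemma ext_sub {G : Type} [Group G] {A : Type} [CommRing A] {n : ℕ} (ρ : G →* GL (Fin n) A)
    (b : G → Fin n → A)
    (hb : ∀ σ τ, b (σ * τ) = b σ + ((ρ σ : Matrix (Fin n) (Fin n) A) *ᵥ b τ)) (σ : G) :
    ext' ρ b hb σ - 1 = Matrix.fromBlocks ((ρ σ : Matrix (Fin n) (Fin n) A) - 1)
      (Matrix.of fun i _ => b σ i) 0 0 := by
  ext x y
  rw [Matrix.sub_apply]
  show Matrix.fromBlocks (ρ σ : Matrix (Fin n) (Fin n) A) (Matrix.of fun i _ => b σ i) 0 1 x y -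
    (1 : Matrix (Fin n ⊕ Fin 1) (Fin n ⊕ Fin 1) A) x y = _
  rw [← Matrix.fromBlocks_one]
  rcases x with i | i <;> rcases y with j | j <;> simp [Matrix.one_apply]

lemma block_pow {A : Type} [CommRing A] {n : ℕ} (R : Matrix (Fin n) (Fin n) A)
    (B : Matrix (Fin n) (Fin 1) A) (k : ℕ) :
    (Matrix.fromBlocks R B 0 0 : Matrix (Fin n ⊕ Fin 1) (Fin n ⊕ Fin 1) A) ^ (k + 1) =
      Matrix.fromBlocks (R ^ (k + 1)) (R ^ k * B) 0 0 := by
  induction k with
  | zero => simp
  | succ k ih =>
    rw [pow_succ', ih, Matrix.fromBlocks_multiply]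
    congr 1
    · rw [pow_succ' R (k + 1)]
      simp
    · rw [pow_succ' R k, Matrix.mul_assoc]
      simp
    · simp
    · simp

/-- the ideal membership of the entries of the extension -/
lemma ext_mem {G : Type} [Group G] {A : Type} [CommRing A] {n : ℕ} (ρ : G →* GL (Fin n) A)
    (b : G → Fin n → A)
    (hb : ∀ σ τ, b (σ * τ) = b σ + ((ρ σ : Matrix (Fin n) (Fin n) A) *ᵥ b τ)) (σ : G) {I : Ideal A}
    (h : InI I ((ext ρ b hb σ : Matrix (Fin (n + 1)) (Fin (n + 1)) A) - 1)) :
    InI I ((ρ σ : Matrix (Fin n) (Fin n) A) - 1) ∧ ∀ i, b σ i ∈ I := by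
  set e := finSumFinEquiv (m := n) (n := 1)
  have key : ∀ x y, (ext' ρ b hb σ - 1) x y ∈ I := by
    intro x y
    have h1 := h (e x) (e y)
    rw [ext_val, ← map_one (Matrix.reindexAlgEquiv A A e), ← map_sub] at h1
    have e1 : (Matrix.reindexAlgEquiv A A e (ext' ρ b hb σ - 1)) (e x) (e y) =
        (ext' ρ b hb σ - 1) x y := by
      simp [Matrix.coe_reindexAlgEquiv, Matrix.reindex_apply, Matrix.submatrix_apply]
    rwa [e1] at h1
  rw [ext_sub] at key
  exact ⟨fun i j => key (Sum.inl i) (Sum.inl j), fun i => key (Sum.inl i) (Sum.inr 0)⟩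

lemma ext_unip {G : Type} [Group G] {A : Type} [CommRing A] {n : ℕ} (ρ : G →* GL (Fin n) A)
    (b : G → Fin n → A)
    (hb : ∀ σ τ, b (σ * τ) = b σ + ((ρ σ : Matrix (Fin n) (Fin n) A) *ᵥ b τ)) (σ : G) {I : Ideal A}
    {m : ℕ} (h : InI I (((ρ σ : Matrix (Fin n) (Fin n) A) - 1) ^ m)) :
    InI I (((ext ρ b hb σ : Matrix (Fin (n + 1)) (Fin (n + 1)) A) - 1) ^ (m + 1)) := by
  set e := finSumFinEquiv (m := n) (n := 1)
  have key : ∀ x y, ((ext' ρ b hb σ - 1) ^ (m + 1)) x y ∈ I := by
    intro x y
    rw [ext_sub, block_pow]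
    have h2 : ∀ (k : ℕ) (B : Matrix (Fin n) (Fin k) A) i j,
        (((ρ σ : Matrix (Fin n) (Fin n) A) - 1) ^ m * B : Matrix (Fin n) (Fin k) A) i j ∈ I := by
      intro k B i j
      rw [Matrix.mul_apply]
      exact Ideal.sum_mem _ fun l _ => Ideal.mul_mem_right _ _ (h i l)
    rcases x with i | i <;> rcases y with j | j
    · show (((ρ σ : Matrix (Fin n) (Fin n) A) - 1) ^ (m + 1)) i j ∈ I
      rw [pow_succ]
      exact h2 n _ i j
    · exact h2 1 _ i j
    · exact zero_mem _
    · exact zero_mem _
  intro i j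
  rw [ext_val, ← map_one (Matrix.reindexAlgEquiv A A e), ← map_sub, ← map_pow]
  have e1 : (Matrix.reindexAlgEquiv A A e ((ext' ρ b hb σ - 1) ^ (m + 1))) i j =
      ((ext' ρ b hb σ - 1) ^ (m + 1)) (e.symm i) (e.symm j) := rfl
  rw [e1]
  exact key _ _

lemma ext_cont {G : Type} [Group G] [TopologicalSpace G] {A : Type} [CommRing A]
    [TopologicalSpace A] {n : ℕ} (ρ : G →* GL (Fin n) A)
    (b : G → Fin n → A)
    (hb : ∀ σ τ, b (σ * τ) = b σ + ((ρ σ : Matrix (Fin n) (Fin n) A) *ᵥ b τ))
    (hρ : ∀ i j, Continuous fun σ => (ρ σ : Matrix (Fin n) (Fin n) A) i j) (hbc : Continuous b)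
    (i j : Fin (n + 1)) :
    Continuous fun σ => (ext ρ b hb σ : Matrix (Fin (n + 1)) (Fin (n + 1)) A) i j := by
  set e := finSumFinEquiv (m := n) (n := 1)
  have key : ∀ x y, Continuous fun σ => (ext' ρ b hb σ) x y := by
    intro x y
    rcases x with i | i <;> rcases y with j | j
    · exact hρ i j
    · exact (continuous_apply i).comp hbc
    · exact continuous_const
    · exact continuous_const
  exact key (e.symm i) (e.symm j)

lemma ext_one {G : Type} [Group G] {A : Type} [CommRing A] {n : ℕ} (ρ : G →* GL (Fin n) A)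
    (b : G → Fin n → A)
    (hb : ∀ σ τ, b (σ * τ) = b σ + ((ρ σ : Matrix (Fin n) (Fin n) A) *ᵥ b τ)) {σ : G}
    (h1 : ρ σ = 1) (h2 : b σ = 0) : ext ρ b hb σ = 1 := by
  apply Units.ext
  have h3 : ext' ρ b hb σ = 1 := by
    rw [← sub_eq_zero, ext_sub, h1, h2]
    rw [Units.val_one, sub_self]
    have : (Matrix.of fun (i : Fin n) (_ : Fin 1) => (0 : Fin n → A) i) = 0 := by
      ext i j
      rfl
    rw [this, Matrix.fromBlocks_zero]
  rw [ext_val, h3, map_one, Units.val_one]

variable {s : QBar} {H : Subgroup (Gal s)} {A : Type} [CommRing A] [IsLocalRing A]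
  [IsNoetherianRing A] [TopologicalSpace A] [IsTopologicalRing A]
  {F : Type} [Field F] [Algebra A F] [IsFractionRing A F] {n : ℕ}

omit [TopologicalSpace A] [IsTopologicalRing A] in
lemma act_int {ρ : H →* GL (Fin n) A} (σ : H) (v : Fin n → A) :
    Pool.Agent.Z384.act F ρ σ (fun i => algebraMap A F (v i)) =
      fun i => algebraMap A F (((ρ σ : Matrix (Fin n) (Fin n) A) *ᵥ v) i) := act_emb ρ σ v

/-- **The main lemma.** -/
theorem main {d : ℕ} (hd : InClass d) (hs : s ^ 2 = -(d : QBar)) {N : Subgroup (Gal s)} (hNH : N ≤ H)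
    (hN : TwoExtension N) (hA : IsAdic (maximalIdeal A)) (hfin : Finite (ResidueField A))
    (h2 : (2 : A) ∈ maximalIdeal A) {ρ : H →* GL (Fin n) A} (hρ : Admissible ρ) (ι : Emb 2)
    {c : H → Fin n → F} (hc : ∃ (a : A) (b : H → Fin n → A), algebraMap A F a ≠ 0 ∧ Continuous b ∧
      ∀ σ i, algebraMap A F a * c σ i = algebraMap A F (b σ i))
    (hcc : ∀ σ τ, c (σ * τ) = c σ + Pool.Agent.Z384.act F ρ σ (c τ)) (hu : IsUnramified F c)
    {v : Fin n → F}
    (hv : ∀ σ : H, (σ : Gal s) ∈ (Dec ι : Set (Gal s)) → c σ = Pool.Agent.Z384.act F ρ σ v - v)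
    (σ : H) : c σ = Pool.Agent.Z384.act F ρ σ v - v := by
  classical
  have hinj := IsFractionRing.injective A F
  have hdom : IsDomain A := hinj.isDomain
  obtain ⟨a, b, ha, hb, hab⟩ := hc
  obtain ⟨⟨q, hq⟩, hqv⟩ := IsLocalization.exist_integer_multiples_of_finset (nonZeroDivisors A)
    (Finset.univ.image v)
  have hq0 : algebraMap A F q ≠ 0 := (map_ne_zero_iff _ hinj).2 (nonZeroDivisors.ne_zero hq)
  have hw : ∀ i, ∃ w : A, algebraMap A F w = algebraMap A F q * v i := by
    intro i
    obtain ⟨w, hw⟩ := hqv (v i) (Finset.mem_image_of_mem _ (Finset.mem_univ i))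
    exact ⟨w, by rw [hw, Algebra.smul_def]⟩
  choose w hw using hw
  set b' : H → Fin n → A := fun σ i => q * b σ i with hb'
  set w' : Fin n → A := fun i => a * w i with hw'
  have hb1 : ∀ σ, (fun i => algebraMap A F (b' σ i)) = (algebraMap A F (a * q)) • c σ := by
    intro σ
    funext i
    rw [Pi.smul_apply, smul_eq_mul, hb', map_mul, map_mul, ← hab]
    ring
  have hw1 : (fun i => algebraMap A F (w' i)) = (algebraMap A F (a * q)) • v := by
    funext i
    rw [Pi.smul_apply, smul_eq_mul, hw', map_mul, map_mul, hw]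
    ring
  have hem : ∀ {x y : Fin n → A}, (fun i => algebraMap A F (x i)) = (fun i => algebraMap A F (y i)) →
      x = y := fun h => funext fun i => hinj (congrFun h i)
  have hcoc : ∀ σ τ, b' (σ * τ) = b' σ + ((ρ σ : Matrix (Fin n) (Fin n) A) *ᵥ b' τ) := by
    intro σ τ
    apply hem
    have e1 : (fun i => algebraMap A F ((b' σ + ((ρ σ : Matrix (Fin n) (Fin n) A) *ᵥ b' τ)) i)) =
        (fun i => algebraMap A F (b' σ i)) +
          fun i => algebraMap A F (((ρ σ : Matrix (Fin n) (Fin n) A) *ᵥ b' τ) i) := by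
      funext i
      rw [Pi.add_apply, Pi.add_apply, map_add]
    rw [e1, ← act_int (F := F), hb1, hb1, hb1, hcc, smul_add, map_smul]
  have hbc : Continuous b' := continuous_pi fun i => continuous_const.mul ((continuous_apply i).comp hb)
  have u1 : ∀ i j, Continuous fun σ => (ext ρ b' hcoc σ : Matrix (Fin (n + 1)) (Fin (n + 1)) A) i j :=
    fun i j => ext_cont ρ b' hcoc hρ.cont hbc i j
  have u2 : ∀ σ, ∃ M : ℕ, InI (maximalIdeal A)
      (((ext ρ b' hcoc σ : Matrix (Fin (n + 1)) (Fin (n + 1)) A) - 1) ^ M) := by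
    intro σ
    obtain ⟨k, hk⟩ := hρ.unipotent σ
    exact ⟨k + 1, ext_unip ρ b' hcoc σ hk⟩
  have u3 : ∀ (p : ℕ) [Fact p.Prime] (ι : Emb p), p ≠ 2 →
      ∀ σ : H, (σ : Gal s) ∈ (Inr ι : Set (Gal s)) → ext ρ b' hcoc σ = 1 := by
    intro p _ ι' hp σ hσ
    refine ext_one ρ b' hcoc (hρ.unramified p ι' hp σ hσ) (hem ?_)
    rw [hb1, hu p ι' hp σ hσ, smul_zero]
    funext i
    simp
  have hden : ∀ m : ℕ, ∃ δ : H, (δ : Gal s) ∈ (Dec ι : Set (Gal s)) ∧
      δ⁻¹ * σ ∈ cong (ext ρ b' hcoc) m := fun m =>
    dense hs hd hNH hN.normal hN.index hN.isOpen hN.unramified hA hfin h2 u1 u2 u3 ι m σ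
  have hD : ∀ δ : H, (δ : Gal s) ∈ (Dec ι : Set (Gal s)) →
      b' δ = ((ρ δ : Matrix (Fin n) (Fin n) A) *ᵥ w') - w' := by
    intro δ hδ
    apply hem
    have e1 : (fun i => algebraMap A F ((((ρ δ : Matrix (Fin n) (Fin n) A) *ᵥ w') - w') i)) =
        (fun i => algebraMap A F (((ρ δ : Matrix (Fin n) (Fin n) A) *ᵥ w') i)) -
          fun i => algebraMap A F (w' i) := by
      funext i
      rw [Pi.sub_apply, Pi.sub_apply, map_sub]
    rw [e1, ← act_int (F := F), hb1, hw1, hv δ hδ, map_smul, smul_sub]
  have hfinal : b' σ - (((ρ σ : Matrix (Fin n) (Fin n) A) *ᵥ w') - w') ∈ (⊥ : Submodule A (Fin n → A)) := by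
    refine krull ⊥ fun m => ⟨0, zero_mem _, fun i => ?_⟩
    obtain ⟨δ, hδ, hcg⟩ := hden m
    obtain ⟨k1, k2⟩ := ext_mem ρ b' hcoc (δ⁻¹ * σ) (mem_cong.1 hcg)
    set h : H := δ⁻¹ * σ with hh
    have hσ : σ = δ * h := by rw [hh]; group
    have e1 : b' σ - (((ρ σ : Matrix (Fin n) (Fin n) A) *ᵥ w') - w') =
        (ρ δ : Matrix (Fin n) (Fin n) A) *ᵥ
          (b' h - (((ρ h : Matrix (Fin n) (Fin n) A) - 1) *ᵥ w')) := by
      rw [hσ, hcoc, hD δ hδ, map_mul, Units.val_mul, Matrix.mulVec_sub, Matrix.sub_mulVec,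
        Matrix.one_mulVec, Matrix.mulVec_sub, Matrix.mulVec_mulVec]
      abel
    rw [e1, Pi.zero_apply, sub_zero]
    have e2 : ∀ j, (b' h - (((ρ h : Matrix (Fin n) (Fin n) A) - 1) *ᵥ w') : Fin n → A) j ∈
        maximalIdeal A ^ m := by
      intro j
      rw [Pi.sub_apply]
      refine sub_mem (k2 j) ?_
      rw [Matrix.mulVec, dotProduct]
      exact Ideal.sum_mem _ fun l _ => Ideal.mul_mem_right _ _ (k1 j l)
    rw [Matrix.mulVec, dotProduct]
    exact Ideal.sum_mem _ fun l _ => Ideal.mul_mem_left _ _ (e2 l)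
  rw [Submodule.mem_bot, sub_eq_zero] at hfinal
  have hne : algebraMap A F (a * q) ≠ 0 := by
    rw [map_mul]
    exact mul_ne_zero ha hq0
  have h3 : (algebraMap A F (a * q)) • c σ = (algebraMap A F (a * q)) • (Pool.Agent.Z384.act F ρ σ v - v) := by
    rw [← hb1, hfinal, smul_sub, ← map_smul, ← hw1, act_int]
    funext i
    rw [Pi.sub_apply, Pi.sub_apply, map_sub]
  exact smul_right_injective _ hne h3

omit [IsNoetherianRing A] in
theorem sum_cocycle {ρ : H →* GL (Fin n) A} {k : ℕ} {c : Fin k → H → Fin n → F}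
    (hc : ∀ i, IsCocycle F ρ (c i)) (x : Fin k → F) :
    IsCocycle F ρ (fun σ => ∑ i, x i • c i σ) := by
  classical
  have hinj := IsFractionRing.injective A F
  have hdom : IsDomain A := hinj.isDomain
  refine ⟨fun σ τ => ?_, ?_⟩
  · show ∑ i, x i • c i (σ * τ) = ∑ i, x i • c i σ + Pool.Agent.Z384.act F ρ σ (∑ i, x i • c i τ)
    rw [map_sum, ← Finset.sum_add_distrib]
    refine Finset.sum_congr rfl fun i _ => ?_
    rw [map_smul, ← smul_add]
    congr 1
    exact (hc i).mul σ τ
  · choose a b ha hb h using fun i => (hc i).cont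
    obtain ⟨⟨q, hq⟩, hqx⟩ := IsLocalization.exist_integer_multiples_of_finset (nonZeroDivisors A)
      (Finset.univ.image x)
    have hq0 : algebraMap A F q ≠ 0 := (map_ne_zero_iff _ hinj).2 (nonZeroDivisors.ne_zero hq)
    have hy : ∀ i, ∃ y : A, algebraMap A F y = algebraMap A F q * x i := by
      intro i
      obtain ⟨w, hw⟩ := hqx (x i) (Finset.mem_image_of_mem _ (Finset.mem_univ i))
      exact ⟨w, by rw [hw, Algebra.smul_def]⟩
    choose y hy using hy
    refine ⟨q * ∏ i, a i, fun σ j => ∑ i, y i * (∏ l ∈ Finset.univ.erase i, a l) * b i σ j, ?_, ?_,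
      fun σ j => ?_⟩
    · rw [map_mul, map_prod]
      exact mul_ne_zero hq0 (Finset.prod_ne_zero_iff.2 fun i _ => ha i)
    · refine continuous_pi fun j => continuous_finsetSum _ fun i _ => ?_
      exact continuous_const.mul ((continuous_apply j).comp (hb i))
    · rw [Finset.sum_apply, Finset.mul_sum, map_sum]
      refine Finset.sum_congr rfl fun i _ => ?_
      rw [Pi.smul_apply, smul_eq_mul, map_mul, map_mul, map_mul, hy, ← h i σ j,
        ← Finset.mul_prod_erase Finset.univ a (Finset.mem_univ i), map_mul]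
      ring

end proof

/-- **Localization at one place above `2`.** Let `K = ℚ(√-d)`, `d` in the class, let `H` be the absolute
Galois group of a field `L` contained in a finite Galois extension of `K` of degree a power of `2`
unramified outside `2`, and let `ρ` be a continuous representation of `H` on `V = F ^ n` which is
residually unipotent and unramified outside `2`. Then for every place of `L` above `2`, given by `ι`,
and all continuous cocycles `c i` with values in `V` that are unramified outside `2`: if their classes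
are linearly independent in `H¹(L, V)`, their localizations are linearly independent in `H¹(L_v, V)`. -/
theorem result : ∀ d : ℕ, InClass d → ∀ s : QBar, s ^ 2 = -(d : QBar) →
    ∀ H N : Subgroup (Gal s), N ≤ H → TwoExtension N →
    ∀ (A : Type) [CommRing A] [IsLocalRing A] [IsNoetherianRing A] [TopologicalSpace A]
      [IsTopologicalRing A],
      IsAdic (maximalIdeal A) → Finite (ResidueField A) → (2 : A) ∈ maximalIdeal A →
    ∀ (F : Type) [Field F] [Algebra A F] [IsFractionRing A F] (n : ℕ) (ρ : H →* GL (Fin n) A),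
      Admissible ρ → ∀ (ι : Emb 2) (k : ℕ) (c : Fin k → H → Fin n → F),
        (∀ i, IsCocycle F ρ (c i)) → (∀ i, IsUnramified F (c i)) →
        IndependentOn F ρ Set.univ c → IndependentOn F ρ (Dec ι) c := by
  intro d hd s hs H N hNH hN A _ _ _ _ _ hA hfin h2 F _ _ _ n ρ hρ ι k c hc hu hind x hx
  refine hind x ?_
  obtain ⟨v, hv⟩ := hx
  refine ⟨v, fun σ _ => ?_⟩
  have h := sum_cocycle hc x
  exact main hd hs hNH hN hA hfin h2 hρ ι h.cont h.mul (fun p _ ι' hp σ hσ => by
    show ∑ i, x i • c i σ = 0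
    refine Finset.sum_eq_zero fun i _ => ?_
    rw [hu i p ι' hp σ hσ, smul_zero]) hv σ

end Pool.Agent.Results.MP_7c08ba_nt.OnePlaceAboveTwo
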